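import Pool.Agent.H27.L1.H34.GZ.Targets1

/-!
Row VOL of the board `gz_modules`: the volume of the Siegel set in terms of the lengths.
-/

set_option autoImplicit false

open MeasureTheory

namespace Pool.Agent.H27.L1.H20.GZ

open Pool.Agent.H27.L1.H34.GM Pool.Agent.H27.L1.H34.GZ

/-! ### Gram-Schmidt row by row -/

/-- the length of the orthogonal component -/
noncomputable def el {m p : ℕ} (u : Fin p → Fin m → ℝ) (w : Fin m → ℝ) : ℝ :=
  Real.sqrt (∑ t, w t ^ 2 - ∑ j, (∑ t, w t * u j t) ^ 2)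

/-- the orthogonal component, normed -/
noncomputable def ov {m p : ℕ} (u : Fin p → Fin m → ℝ) (w : Fin m → ℝ) : Fin m → ℝ :=
  fun t => (el u w)⁻¹ * (w t - ∑ j, (∑ s, w s * u j s) * u j t)

/-- the Gram-Schmidt vectors -/
noncomputable def kv {m : ℕ} : (p : ℕ) → (Fin p → Fin m → ℝ) → Fin p → Fin m → ℝ
  | 0, _ => fun i => i.elim0
  | p + 1, z => Fin.snoc (α := fun _ => Fin m → ℝ) (kv p fun i => z i.castSucc)
      (ov (kv p fun i => z i.castSucc) (z (Fin.last p)))

/-- the Gram-Schmidt lengths -/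
noncomputable def ln {m : ℕ} : (p : ℕ) → (Fin p → Fin m → ℝ) → Fin p → ℝ
  | 0, _ => fun i => i.elim0
  | p + 1, z => Fin.snoc (α := fun _ => ℝ) (ln p fun i => z i.castSucc)
      (el (kv p fun i => z i.castSucc) (z (Fin.last p)))

/-- the conditions -/
def Gd {m : ℕ} : (p : ℕ) → (Fin p → Fin m → ℝ) → Prop
  | 0, _ => True
  | p + 1, z => Gd p (fun i => z i.castSucc) ∧
      0 < el (kv p fun i => z i.castSucc) (z (Fin.last p)) ∧
      ∀ j, |∑ t, z (Fin.last p) t * kv p (fun i => z i.castSucc) j t| ≤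
        ln p (fun i => z i.castSucc) j / 2

theorem kv_last {m p : ℕ} (z : Fin (p + 1) → Fin m → ℝ) :
    kv (p + 1) z (Fin.last p) = ov (kv p fun i => z i.castSucc) (z (Fin.last p)) :=
  Fin.snoc_last _ _

theorem kv_cs {m p : ℕ} (z : Fin (p + 1) → Fin m → ℝ) (i : Fin p) :
    kv (p + 1) z i.castSucc = kv p (fun i => z i.castSucc) i :=
  Fin.snoc_castSucc _ _ _

theorem ln_last {m p : ℕ} (z : Fin (p + 1) → Fin m → ℝ) :
    ln (p + 1) z (Fin.last p) = el (kv p fun i => z i.castSucc) (z (Fin.last p)) :=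
  Fin.snoc_last _ _

theorem ln_cs {m p : ℕ} (z : Fin (p + 1) → Fin m → ℝ) (i : Fin p) :
    ln (p + 1) z i.castSucc = ln p (fun i => z i.castSucc) i :=
  Fin.snoc_castSucc _ _ _

theorem ln_pos {m : ℕ} (p : ℕ) : ∀ z : Fin p → Fin m → ℝ, Gd p z → ∀ j, 0 < ln p z j := by
  induction p with
  | zero => exact fun z _ j => j.elim0
  | succ p ih =>
    intro z hz j
    obtain ⟨h1, h2, -⟩ := hz
    refine Fin.lastCases ?_ (fun i => ?_) j
    · rw [ln_last]
      exact h2
    · rw [ln_cs]
      exact ih _ h1 i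

theorem sum_res {m p : ℕ} (u : Fin p → Fin m → ℝ) (w v : Fin m → ℝ) (c : Fin p → ℝ) :
    ∑ t, v t * (w t - ∑ l, c l * u l t) = ∑ t, v t * w t - ∑ l, c l * ∑ t, v t * u l t := by
  have h : ∑ t, v t * ∑ l, c l * u l t = ∑ l, c l * ∑ t, v t * u l t := by
    simp only [Finset.mul_sum]
    rw [Finset.sum_comm]
    refine Finset.sum_congr rfl fun l _ => Finset.sum_congr rfl fun t _ => ?_
    ring
  rw [← h, ← Finset.sum_sub_distrib]
  exact Finset.sum_congr rfl fun t _ => mul_sub _ _ _

theorem ov_orth {m p : ℕ} (u : Fin p → Fin m → ℝ) (w : Fin m → ℝ)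
    (hu : ∀ j l, ∑ t, u j t * u l t = if j = l then 1 else 0) (h : 0 < el u w) :
    (∀ j, ∑ t, u j t * ov u w t = 0) ∧ ∑ t, ov u w t * ov u w t = 1 := by
  obtain ⟨c, hc⟩ : ∃ c : Fin p → ℝ, c = fun l => ∑ s, w s * u l s := ⟨_, rfl⟩
  have hcl : ∀ l, c l = ∑ t, w t * u l t := fun l => by rw [hc]
  obtain ⟨r, hr⟩ : ∃ r : Fin m → ℝ, r = fun t => w t - ∑ l, c l * u l t := ⟨_, rfl⟩
  have hrt : ∀ t, r t = w t - ∑ l, c l * u l t := fun t => by rw [hr]
  have h1 : ∀ j, ∑ t, u j t * r t = 0 := by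
    intro j
    simp only [hrt]
    rw [sum_res]
    simp only [hu, mul_ite, mul_one, mul_zero, Finset.sum_ite_eq, Finset.mem_univ, if_true]
    rw [hcl, sub_eq_zero]
    exact Finset.sum_congr rfl fun t _ => mul_comm _ _
  have h2 : ∑ t, r t * r t = ∑ t, w t ^ 2 - ∑ j, (∑ t, w t * u j t) ^ 2 := by
    calc ∑ t, r t * r t = ∑ t, r t * (w t - ∑ l, c l * u l t) :=
          Finset.sum_congr rfl fun t _ => by rw [← hrt]
      _ = ∑ t, r t * w t - ∑ l, c l * ∑ t, r t * u l t := sum_res _ _ _ _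
      _ = ∑ t, r t * w t - ∑ l, c l * 0 := by
          congr 1
          refine Finset.sum_congr rfl fun l _ => ?_
          rw [← h1 l]
          congr 1
          exact Finset.sum_congr rfl fun t _ => mul_comm _ _
      _ = ∑ t, w t * (w t - ∑ l, c l * u l t) := by
          simp only [mul_zero, Finset.sum_const_zero, sub_zero]
          refine Finset.sum_congr rfl fun t _ => ?_
          rw [← hrt]
          exact mul_comm _ _
      _ = ∑ t, w t * w t - ∑ l, c l * ∑ t, w t * u l t := sum_res _ _ _ _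
      _ = _ := by
          congr 1
          · exact Finset.sum_congr rfl fun t _ => (sq _).symm
          · refine Finset.sum_congr rfl fun l _ => ?_
            rw [← hcl, sq]
  have h3 : ∑ t, r t * r t = el u w * el u w := by
    rw [h2]
    unfold el at h ⊢
    exact (Real.mul_self_sqrt (Real.sqrt_pos.1 h).le).symm
  have h4 : ∀ t, ov u w t = (el u w)⁻¹ * r t := fun t => by
    rw [hrt]
    simp only [hcl]
    rfl
  constructor
  · intro j
    calc ∑ t, u j t * ov u w t = (el u w)⁻¹ * ∑ t, u j t * r t := by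
          rw [Finset.mul_sum]
          refine Finset.sum_congr rfl fun t _ => ?_
          rw [h4]
          ring
      _ = 0 := by rw [h1, mul_zero]
  · calc ∑ t, ov u w t * ov u w t = (el u w)⁻¹ * (el u w)⁻¹ * ∑ t, r t * r t := by
          rw [Finset.mul_sum]
          refine Finset.sum_congr rfl fun t _ => ?_
          rw [h4]
          ring
      _ = 1 := by
          rw [h3]
          field_simp

theorem kv_orth {m : ℕ} (p : ℕ) : ∀ z : Fin p → Fin m → ℝ, Gd p z → ∀ j l,
    ∑ t, kv p z j t * kv p z l t = if j = l then 1 else 0 := by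
  induction p with
  | zero => exact fun z _ j => j.elim0
  | succ p ih =>
    intro z hz j l
    obtain ⟨h1, h2, -⟩ := hz
    obtain ⟨h3, h4⟩ := ov_orth _ _ (ih _ h1) h2
    refine Fin.lastCases ?_ (fun i => ?_) j
    · refine Fin.lastCases ?_ (fun i' => ?_) l
      · rw [if_pos rfl, kv_last]
        exact h4
      · rw [if_neg (Fin.castSucc_ne_last i').symm, kv_last, kv_cs, ← h3 i']
        exact Finset.sum_congr rfl fun t _ => mul_comm _ _
    · refine Fin.lastCases ?_ (fun i' => ?_) l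
      · rw [if_neg (Fin.castSucc_ne_last i), kv_last, kv_cs]
        exact h3 i
      · rw [kv_cs, kv_cs, ih _ h1 i i']
        simp only [Fin.castSucc_inj]

/-! ### measurability -/

theorem meas_el {m p : ℕ} : Measurable fun x : (Fin p → Fin m → ℝ) × (Fin m → ℝ) =>
    el x.1 x.2 := by
  unfold el
  fun_prop

theorem meas_ov {m p : ℕ} : Measurable fun x : (Fin p → Fin m → ℝ) × (Fin m → ℝ) =>
    ov x.1 x.2 := by
  have h := meas_el (m := m) (p := p)
  unfold ov
  fun_prop

theorem meas_cs {X : Type} [MeasurableSpace X] (p : ℕ) :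
    Measurable fun (z : Fin (p + 1) → X) (i : Fin p) => z i.castSucc := by
  fun_prop

theorem meas_snoc {X : Type} [MeasurableSpace X] (p : ℕ) :
    Measurable fun x : (Fin p → X) × X => (Fin.snoc (α := fun _ => X) x.1 x.2 : Fin (p + 1) → X) := by
  rw [measurable_pi_iff]
  intro i
  refine Fin.lastCases ?_ (fun j => ?_) i
  · simp only [Fin.snoc_last]
    fun_prop
  · simp only [Fin.snoc_castSucc]
    fun_prop

theorem meas_kv {m : ℕ} (p : ℕ) : Measurable fun z : Fin p → Fin m → ℝ => kv p z := by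
  induction p with
  | zero =>
    rw [measurable_pi_iff]
    exact fun i => i.elim0
  | succ p ih =>
    have h1 : Measurable fun z : Fin (p + 1) → Fin m → ℝ => kv p fun i => z i.castSucc :=
      ih.comp (meas_cs p)
    exact (meas_snoc p).comp (h1.prodMk (meas_ov.comp (h1.prodMk (measurable_pi_apply _))))

theorem meas_ln {m : ℕ} (p : ℕ) : Measurable fun z : Fin p → Fin m → ℝ => ln p z := by
  induction p with
  | zero =>
    rw [measurable_pi_iff]
    exact fun i => i.elim0
  | succ p ih =>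
    have h1 : Measurable fun z : Fin (p + 1) → Fin m → ℝ => ln p fun i => z i.castSucc :=
      ih.comp (meas_cs p)
    have h2 : Measurable fun z : Fin (p + 1) → Fin m → ℝ => kv p fun i => z i.castSucc :=
      (meas_kv p).comp (meas_cs p)
    exact (meas_snoc p).comp (h1.prodMk (meas_el.comp (h2.prodMk (measurable_pi_apply _))))

theorem meas_Gd {m : ℕ} (p : ℕ) : MeasurableSet {z : Fin p → Fin m → ℝ | Gd p z} := by
  induction p with
  | zero => exact MeasurableSet.univ
  | succ p ih =>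
    have h1 : Measurable fun z : Fin (p + 1) → Fin m → ℝ => ln p fun i => z i.castSucc :=
      (meas_ln p).comp (meas_cs p)
    have h2 : Measurable fun z : Fin (p + 1) → Fin m → ℝ => kv p fun i => z i.castSucc :=
      (meas_kv p).comp (meas_cs p)
    have h3 : MeasurableSet {z : Fin (p + 1) → Fin m → ℝ | Gd p fun i => z i.castSucc} :=
      (meas_cs p) ih
    have h4 : MeasurableSet {z : Fin (p + 1) → Fin m → ℝ |
        0 < el (kv p fun i => z i.castSucc) (z (Fin.last p))} :=
      measurableSet_lt measurable_const (meas_el.comp (h2.prodMk (measurable_pi_apply _)))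
    have h5 : MeasurableSet {z : Fin (p + 1) → Fin m → ℝ |
        ∀ j, |∑ t, z (Fin.last p) t * kv p (fun i => z i.castSucc) j t| ≤
        ln p (fun i => z i.castSucc) j / 2} := by
      rw [Set.ofPred_forall]
      refine MeasurableSet.iInter fun j => ?_
      refine measurableSet_le ?_ ?_
      · have h6 : ∀ t, Measurable fun z : Fin (p + 1) → Fin m → ℝ =>
            kv p (fun i => z i.castSucc) j t := fun t => by
          have h7 := (measurable_pi_apply j).comp h2
          exact (measurable_pi_apply t).comp h7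
        fun_prop
      · exact ((measurable_pi_apply j).comp h1).div_const _
    exact h3.inter (h4.inter h5)

/-! ### the induction -/

theorem lint_succ {X : Type} [MeasureSpace X] [SigmaFinite (volume : Measure X)] (p : ℕ)
    (H : X × (Fin p → X) → ENNReal) (hH : Measurable H) :
    ∫⁻ z : Fin (p + 1) → X, H (z (Fin.last p), fun i => z i.castSucc) =
      ∫⁻ z' : Fin p → X, ∫⁻ w : X, H (w, z') := by
  have h := (volume_preserving_piFinSuccAbove (fun _ : Fin (p + 1) => X)
    (Fin.last p)).lintegral_comp hH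
  have h1 : ∀ z : Fin (p + 1) → X,
      (MeasurableEquiv.piFinSuccAbove (fun _ : Fin (p + 1) => X) (Fin.last p)) z =
        (z (Fin.last p), fun i => z i.castSucc) := by
    intro z
    refine Prod.ext rfl ?_
    funext i
    exact congrArg z (Fin.succAbove_last_apply i)
  simp only [h1] at h
  rw [h]
  exact lintegral_prod_symm' _ hH

/-- the weight -/
noncomputable def wgh (m p : ℕ) (a : Fin p → ℝ) : ENNReal :=
  ENNReal.ofReal (∏ j : Fin p, a j ^ ((m - 1 - (j : ℕ)) + (p - 1 - (j : ℕ))))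

/-- the positive vectors -/
def pv (p : ℕ) : Set (Fin p → ℝ) := {a | ∀ i, 0 < a i}

theorem meas_pv (p : ℕ) : MeasurableSet (pv p) := by
  unfold pv
  rw [Set.ofPred_forall]
  exact MeasurableSet.iInter fun i => measurableSet_lt measurable_const (measurable_pi_apply i)

theorem meas_wgh (m p : ℕ) : Measurable (wgh m p) := by
  unfold wgh
  fun_prop

theorem wgh_succ (m p : ℕ) (b : Fin (p + 1) → ℝ) : wgh m (p + 1) b =
    ENNReal.ofReal ((∏ j : Fin p, b j.castSucc ^ ((m - 1 - (j : ℕ)) + (p - 1 - (j : ℕ)) + 1)) *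
      b (Fin.last p) ^ (m - 1 - p)) := by
  unfold wgh
  rw [Fin.prod_univ_castSucc]
  congr 2
  · refine Finset.prod_congr rfl fun j _ => ?_
    congr 1
    have := j.isLt
    simp only [Fin.val_castSucc]
    omega
  · congr 1
    simp only [Fin.val_last]
    omega

/-- the function in the induction step -/
noncomputable def Fn (m p : ℕ) (C : ℝ) (F : (Fin (p + 1) → ℝ) → ENNReal) (a : Fin p → ℝ) :
    ENNReal :=
  ENNReal.ofReal (C * ∏ j, a j) * ∫⁻ t in Set.Ioi (0 : ℝ),
    F (Fin.snoc (α := fun _ => ℝ) a t) * ENNReal.ofReal (t ^ (m - 1 - p))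

theorem meas_Fn (m p : ℕ) (C : ℝ) (F : (Fin (p + 1) → ℝ) → ENNReal) (hF : Measurable F) :
    Measurable (Fn m p C F) := by
  unfold Fn
  refine Measurable.mul (by fun_prop) ?_
  have h1 : Measurable fun x : (Fin p → ℝ) × ℝ =>
      F (Fin.snoc (α := fun _ => ℝ) x.1 x.2) * ENNReal.ofReal (x.2 ^ (m - 1 - p)) :=
    (hF.comp (meas_snoc p)).mul (by fun_prop)
  exact h1.lintegral_prod_right'

theorem Fn_int (m p : ℕ) (C : ℝ) (hC : 0 < C) (F : (Fin (p + 1) → ℝ) → ENNReal)
    (hF : Measurable F) :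
    ∫⁻ a, (pv p).indicator (fun a => Fn m p C F a * wgh m p a) a =
      ENNReal.ofReal C * ∫⁻ b, (pv (p + 1)).indicator (fun b => F b * wgh m (p + 1) b) b := by
  obtain ⟨H, hH⟩ : ∃ H : ℝ × (Fin p → ℝ) → ENNReal, H = fun x =>
      {x : ℝ × (Fin p → ℝ) | x.2 ∈ pv p ∧ 0 < x.1}.indicator (fun x =>
        F (Fin.snoc (α := fun _ => ℝ) x.2 x.1) *
          ENNReal.ofReal ((∏ j : Fin p, x.2 j ^ ((m - 1 - (j : ℕ)) + (p - 1 - (j : ℕ)) + 1)) *
            x.1 ^ (m - 1 - p))) x := ⟨_, rfl⟩
  have hsn : Measurable fun x : ℝ × (Fin p → ℝ) =>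
      F (Fin.snoc (α := fun _ => ℝ) x.2 x.1) :=
    hF.comp ((meas_snoc p).comp measurable_swap)
  have hHm : Measurable H := by
    rw [hH]
    refine Measurable.indicator (hsn.mul (by fun_prop)) ?_
    exact (measurable_snd (meas_pv p)).inter (measurableSet_lt measurable_const measurable_fst)
  have hH1 : ∀ (t : ℝ) (a : Fin p → ℝ), a ∈ pv p → 0 < t → H (t, a) =
      F (Fin.snoc (α := fun _ => ℝ) a t) *
        ENNReal.ofReal ((∏ j : Fin p, a j ^ ((m - 1 - (j : ℕ)) + (p - 1 - (j : ℕ)) + 1)) *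
          t ^ (m - 1 - p)) := by
    intro t a ha ht
    rw [hH]
    exact Set.indicator_of_mem (s := {x : ℝ × (Fin p → ℝ) | x.2 ∈ pv p ∧ 0 < x.1})
      (a := (t, a)) ⟨ha, ht⟩ _
  have hH0 : ∀ (t : ℝ) (a : Fin p → ℝ), ¬ (a ∈ pv p ∧ 0 < t) → H (t, a) = 0 := by
    intro t a h
    rw [hH]
    exact Set.indicator_of_notMem (s := {x : ℝ × (Fin p → ℝ) | x.2 ∈ pv p ∧ 0 < x.1})
      (a := (t, a)) h _
  have h1 : ∫⁻ b, (pv (p + 1)).indicator (fun b => F b * wgh m (p + 1) b) b =
      ∫⁻ a : Fin p → ℝ, ∫⁻ t : ℝ, H (t, a) := by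
    rw [← lint_succ p H hHm]
    refine lintegral_congr fun b => ?_
    have h2 : b ∈ pv (p + 1) ↔ (fun i : Fin p => b i.castSucc) ∈ pv p ∧ 0 < b (Fin.last p) := by
      constructor
      · exact fun h => ⟨fun i => h _, h _⟩
      · rintro ⟨h3, h4⟩ i
        exact Fin.lastCases h4 h3 i
    have h5 : (Fin.snoc (α := fun _ => ℝ) (fun i : Fin p => b i.castSucc) (b (Fin.last p)) :
        Fin (p + 1) → ℝ) = b := Fin.snoc_init_self b
    by_cases h : b ∈ pv (p + 1)
    · rw [Set.indicator_of_mem h, hH1 _ _ (h2.1 h).1 (h2.1 h).2, h5, wgh_succ]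
    · rw [Set.indicator_of_notMem h, hH0 _ _ (fun h' => h (h2.2 h'))]
  rw [h1, ← lintegral_const_mul' _ _ ENNReal.ofReal_ne_top]
  refine lintegral_congr fun a => ?_
  by_cases h : a ∈ pv p
  · rw [Set.indicator_of_mem h]
    have hP : 0 < ∏ j, a j := Finset.prod_pos fun j _ => h j
    have h6 : ∀ t : ℝ, H (t, a) = (Set.Ioi (0 : ℝ)).indicator (fun t =>
        ENNReal.ofReal (∏ j : Fin p, a j ^ ((m - 1 - (j : ℕ)) + (p - 1 - (j : ℕ)) + 1)) *
          (F (Fin.snoc (α := fun _ => ℝ) a t) * ENNReal.ofReal (t ^ (m - 1 - p)))) t := by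
      intro t
      by_cases ht : 0 < t
      · rw [Set.indicator_of_mem (s := Set.Ioi (0 : ℝ)) ht, hH1 t a h ht,
          ENNReal.ofReal_mul (Finset.prod_nonneg fun j _ => pow_nonneg (h j).le _)]
        ring
      · rw [Set.indicator_of_notMem (s := Set.Ioi (0 : ℝ)) ht, hH0 t a (fun h' => ht h'.2)]
    simp only [h6]
    rw [lintegral_indicator measurableSet_Ioi, lintegral_const_mul' _ _ ENNReal.ofReal_ne_top,
      ← mul_assoc, ← ENNReal.ofReal_mul hC.le]
    unfold Fn wgh
    rw [mul_assoc, mul_comm (lintegral _ _), ← mul_assoc, ← ENNReal.ofReal_mul (by positivity),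
      mul_assoc C, ← Finset.prod_mul_distrib]
    congr 3
    refine Finset.prod_congr rfl fun j _ => ?_
    rw [pow_succ]
    ring
  · rw [Set.indicator_of_notMem h]
    simp only [fun t : ℝ => hH0 t a (fun h' => h h'.1), lintegral_zero, mul_zero]

theorem vol0 {X : Type} [MeasureSpace X] [SigmaFinite (volume : Measure X)] :
    (volume : Measure (Fin 0 → X)) Set.univ = 1 := by
  rw [volume_pi]
  exact Measure.pi_empty_univ _

/-- the conditions for one more row -/
def Bs (m p : ℕ) : Set ((Fin m → ℝ) × (Fin p → Fin m → ℝ)) :=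
  {x | Gd p x.2 ∧ 0 < el (kv p x.2) x.1 ∧ ∀ j, |∑ t, x.1 t * kv p x.2 j t| ≤ ln p x.2 j / 2}

/-- the lengths with one more row -/
noncomputable def gsn (m p : ℕ) (x : (Fin m → ℝ) × (Fin p → Fin m → ℝ)) : Fin (p + 1) → ℝ :=
  Fin.snoc (α := fun _ => ℝ) (ln p x.2) (el (kv p x.2) x.1)

theorem meas_Bs_gsn (m p : ℕ) : MeasurableSet (Bs m p) ∧ Measurable (gsn m p) := by
  have hk : Measurable fun x : (Fin m → ℝ) × (Fin p → Fin m → ℝ) => kv p x.2 :=
    (meas_kv p).comp measurable_snd
  have hl : Measurable fun x : (Fin m → ℝ) × (Fin p → Fin m → ℝ) => ln p x.2 :=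
    (meas_ln p).comp measurable_snd
  have he : Measurable fun x : (Fin m → ℝ) × (Fin p → Fin m → ℝ) => el (kv p x.2) x.1 :=
    meas_el.comp (hk.prodMk measurable_fst)
  refine ⟨?_, (meas_snoc p).comp (hl.prodMk he)⟩
  have h8 : MeasurableSet {x : (Fin m → ℝ) × (Fin p → Fin m → ℝ) |
      ∀ j, |∑ t, x.1 t * kv p x.2 j t| ≤ ln p x.2 j / 2} := by
    rw [Set.ofPred_forall]
    refine MeasurableSet.iInter fun j => ?_
    refine measurableSet_le ?_ (((measurable_pi_apply j).comp hl).div_const _)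
    have h6 : ∀ t, Measurable fun x : (Fin m → ℝ) × (Fin p → Fin m → ℝ) =>
        kv p x.2 j t := fun t => by
      have h7 := (measurable_pi_apply j).comp hk
      exact (measurable_pi_apply t).comp h7
    fun_prop
  exact (measurable_snd (meas_Gd p)).inter ((measurableSet_lt measurable_const he).inter h8)

theorem main_bd (hVO2 : T_VO2) (m : ℕ) : ∀ p, p ≤ m → ∃ C : ℝ, 0 < C ∧
    ∀ F : (Fin p → ℝ) → ENNReal, Measurable F →
      ∫⁻ z : Fin p → Fin m → ℝ, {z : Fin p → Fin m → ℝ | Gd p z}.indicator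
        (fun z => F (ln p z)) z ≤
      ENNReal.ofReal C * ∫⁻ a, (pv p).indicator (fun a => F a * wgh m p a) a := by
  intro p
  induction p with
  | zero =>
    intro _
    refine ⟨1, one_pos, fun F _ => ?_⟩
    rw [lintegral_unique, lintegral_unique, ENNReal.ofReal_one, one_mul, vol0, vol0, mul_one,
      mul_one, Set.indicator_of_mem (s := {z : Fin 0 → Fin m → ℝ | Gd 0 z}) trivial,
      Set.indicator_of_mem (s := pv 0) (fun i => i.elim0)]
    have h1 : ∀ a : Fin 0 → ℝ, wgh m 0 a = 1 := by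
      intro a
      unfold wgh
      rw [Finset.univ_eq_empty, Finset.prod_empty, ENNReal.ofReal_one]
    rw [h1, mul_one]
    exact le_of_eq (congrArg F (Subsingleton.elim _ _))
  | succ p ih =>
    intro hp
    obtain ⟨C₁, hC₁, h1⟩ := ih (by omega)
    obtain ⟨C₂, hC₂, h2⟩ := hVO2 m p (by omega)
    obtain ⟨hBm, hgm⟩ := meas_Bs_gsn m p
    refine ⟨C₁ * C₂, mul_pos hC₁ hC₂, fun F hF => ?_⟩
    obtain ⟨H, hH⟩ : ∃ H : (Fin m → ℝ) × (Fin p → Fin m → ℝ) → ENNReal,
      H = (Bs m p).indicator (fun x => F (gsn m p x)) := ⟨_, rfl⟩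
    have hHm : Measurable H := by
      rw [hH]
      exact Measurable.indicator (hF.comp hgm) hBm
    have hH1 : ∀ x, x ∈ Bs m p → H x = F (gsn m p x) := by
      intro x hx
      rw [hH, Set.indicator_of_mem hx]
    have hH0 : ∀ x, x ∉ Bs m p → H x = 0 := by
      intro x hx
      rw [hH, Set.indicator_of_notMem hx]
    have hL : ∫⁻ z : Fin (p + 1) → Fin m → ℝ, {z : Fin (p + 1) → Fin m → ℝ |
        Gd (p + 1) z}.indicator (fun z => F (ln (p + 1) z)) z =
        ∫⁻ z' : Fin p → Fin m → ℝ, ∫⁻ w : Fin m → ℝ, H (w, z') := by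
      rw [← lint_succ p H hHm]
      refine lintegral_congr fun z => ?_
      by_cases h : Gd (p + 1) z
      · rw [Set.indicator_of_mem (s := {z : Fin (p + 1) → Fin m → ℝ | Gd (p + 1) z}) h,
          hH1 _ h]
        rfl
      · rw [Set.indicator_of_notMem (s := {z : Fin (p + 1) → Fin m → ℝ | Gd (p + 1) z}) h,
          hH0 _ h]
    have hM : ∀ z' : Fin p → Fin m → ℝ, ∫⁻ w : Fin m → ℝ, H (w, z') ≤
        {z : Fin p → Fin m → ℝ | Gd p z}.indicator (fun z => Fn m p C₂ F (ln p z)) z' := by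
      intro z'
      by_cases h : Gd p z'
      · rw [Set.indicator_of_mem (s := {z : Fin p → Fin m → ℝ | Gd p z}) h]
        obtain ⟨f, hf⟩ : ∃ f : ℝ → ENNReal, f = (Set.Ioi (0 : ℝ)).indicator
            (fun t => F (Fin.snoc (α := fun _ => ℝ) (ln p z') t)) := ⟨_, rfl⟩
        have hsn : Measurable fun t : ℝ =>
            (Fin.snoc (α := fun _ => ℝ) (ln p z') t : Fin (p + 1) → ℝ) :=
          (meas_snoc p).comp (measurable_const.prodMk measurable_id)
        have hfm : Measurable f := by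
          rw [hf]
          exact Measurable.indicator (hF.comp hsn) measurableSet_Ioi
        have hf1 : ∀ t, 0 < t → f t = F (Fin.snoc (α := fun _ => ℝ) (ln p z') t) := by
          intro t ht
          rw [hf, Set.indicator_of_mem (s := Set.Ioi (0 : ℝ)) ht]
        have h3 := h2 (kv p z') (ln p z') f hfm (ln_pos p z' h) (kv_orth p z' h)
        have h4 : ∫⁻ t in Set.Ioi (0 : ℝ), f t * ENNReal.ofReal (t ^ (m - 1 - p)) =
            ∫⁻ t in Set.Ioi (0 : ℝ), F (Fin.snoc (α := fun _ => ℝ) (ln p z') t) *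
              ENNReal.ofReal (t ^ (m - 1 - p)) := by
          refine setLIntegral_congr_fun measurableSet_Ioi fun t ht => ?_
          simp only [hf1 t ht]
        rw [h4] at h3
        refine le_trans (lintegral_mono fun w => ?_) h3
        by_cases h' : (w, z') ∈ Bs m p
        · rw [if_pos h'.2.2, hH1 _ h']
          exact le_of_eq (hf1 _ h'.2.1).symm
        · rw [hH0 _ h']
          exact bot_le
      · rw [Set.indicator_of_notMem (s := {z : Fin p → Fin m → ℝ | Gd p z}) h]
        have h3 : ∀ w, H (w, z') = 0 := fun w => hH0 _ fun h' => h h'.1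
        simp only [h3, lintegral_zero, le_refl]
    rw [hL]
    calc ∫⁻ z' : Fin p → Fin m → ℝ, ∫⁻ w : Fin m → ℝ, H (w, z') ≤
        ∫⁻ z' : Fin p → Fin m → ℝ, {z : Fin p → Fin m → ℝ | Gd p z}.indicator
          (fun z => Fn m p C₂ F (ln p z)) z' := lintegral_mono hM
      _ ≤ ENNReal.ofReal C₁ * ∫⁻ a, (pv p).indicator
          (fun a => Fn m p C₂ F a * wgh m p a) a := h1 _ (meas_Fn m p C₂ F hF)
      _ = ENNReal.ofReal (C₁ * C₂) * ∫⁻ b, (pv (p + 1)).indicator
          (fun b => F b * wgh m (p + 1) b) b := by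
        rw [Fn_int m p C₂ hC₂ F hF, ← mul_assoc, ENNReal.ofReal_mul hC₁.le]

/-! ### Siegel reduced matrices -/

theorem sgl_kv {m : ℕ} (p : ℕ) : ∀ (z κ : Fin p → Fin m → ℝ) (a : Fin p → ℝ)
    (n : Fin p → Fin p → ℝ), (∀ j l, ∑ t, κ j t * κ l t = if j = l then 1 else 0) →
    (∀ i, 0 < a i) → (∀ i, n i i = 1) → (∀ i j, i < j → n i j = 0) →
    (∀ i j, j < i → |n i j| ≤ 1 / 2) → (∀ i t, z i t = ∑ j, n i j * a j * κ j t) →
    kv p z = κ ∧ ln p z = a ∧ Gd p z := by
  induction p with
  | zero => exact fun z κ a n _ _ _ _ _ _ => ⟨Subsingleton.elim _ _, Subsingleton.elim _ _, trivial⟩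
  | succ p ih =>
    intro z κ a n hκ ha hn1 hn0 hn2 hz
    obtain ⟨h1, h2, h3⟩ := ih (fun i => z i.castSucc) (fun i => κ i.castSucc)
      (fun i => a i.castSucc) (fun i j => n i.castSucc j.castSucc)
      (fun j l => by simp only [hκ, Fin.castSucc_inj]) (fun i => ha _) (fun i => hn1 _)
      (fun i j h => hn0 _ _ (Fin.castSucc_lt_castSucc_iff.2 h))
      (fun i j h => hn2 _ _ (Fin.castSucc_lt_castSucc_iff.2 h)) (fun i t => by
        rw [hz, Fin.sum_univ_castSucc, hn0 _ _ (Fin.castSucc_lt_last i), zero_mul, zero_mul,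
          add_zero])
    obtain ⟨c, hc⟩ : ∃ c : Fin (p + 1) → ℝ, c = fun j => n (Fin.last p) j * a j := ⟨_, rfl⟩
    have hcl : c (Fin.last p) = a (Fin.last p) := by
      rw [hc]
      simp only [hn1, one_mul]
    have hw : ∀ t, z (Fin.last p) t = ∑ j, c j * κ j t := by
      intro t
      rw [hz, hc]
    have hip : ∀ l, ∑ t, z (Fin.last p) t * κ l t = c l := by
      intro l
      have h4 : ∑ t, (∑ j, c j * κ j t) * κ l t = ∑ j, c j * ∑ t, κ j t * κ l t := by
        simp only [Finset.sum_mul, Finset.mul_sum]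
        rw [Finset.sum_comm]
        refine Finset.sum_congr rfl fun j _ => Finset.sum_congr rfl fun t _ => ?_
        ring
      simp only [hw]
      rw [h4]
      simp only [hκ, mul_ite, mul_one, mul_zero, Finset.sum_ite_eq', Finset.mem_univ, if_true]
    have hsq : ∑ t, z (Fin.last p) t ^ 2 = ∑ j, c j ^ 2 := by
      have h4 : ∑ t, z (Fin.last p) t * (∑ j, c j * κ j t) =
          ∑ j, c j * ∑ t, z (Fin.last p) t * κ j t := by
        simp only [Finset.mul_sum]
        rw [Finset.sum_comm]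
        refine Finset.sum_congr rfl fun j _ => Finset.sum_congr rfl fun t _ => ?_
        ring
      calc ∑ t, z (Fin.last p) t ^ 2 = ∑ t, z (Fin.last p) t * (∑ j, c j * κ j t) := by
            refine Finset.sum_congr rfl fun t _ => ?_
            rw [← hw, sq]
        _ = ∑ j, c j * ∑ t, z (Fin.last p) t * κ j t := h4
        _ = ∑ j, c j ^ 2 := by
            refine Finset.sum_congr rfl fun j _ => ?_
            rw [hip, sq]
    have hel : el (fun i => κ i.castSucc) (z (Fin.last p)) = a (Fin.last p) := by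
      unfold el
      rw [hsq, Fin.sum_univ_castSucc]
      simp only [hip]
      rw [add_sub_cancel_left, hcl]
      exact Real.sqrt_sq (ha _).le
    have hov : ov (fun i => κ i.castSucc) (z (Fin.last p)) = κ (Fin.last p) := by
      funext t
      unfold ov
      rw [hel]
      simp only [hip]
      rw [hw, Fin.sum_univ_castSucc, add_sub_cancel_left, hcl, ← mul_assoc,
        inv_mul_cancel₀ (ha _).ne', one_mul]
    refine ⟨?_, ?_, h3, ?_, ?_⟩
    · funext i
      refine Fin.lastCases ?_ (fun j => ?_) i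
      · rw [kv_last, h1, hov]
      · rw [kv_cs, h1]
    · funext i
      refine Fin.lastCases ?_ (fun j => ?_) i
      · rw [ln_last, h1, hel]
      · rw [ln_cs, h2]
    · rw [h1, hel]
      exact ha _
    · intro j
      rw [h1, h2]
      simp only [hip]
      rw [hc]
      simp only
      rw [abs_mul, abs_of_pos (ha _)]
      have h5 := mul_le_mul_of_nonneg_right (hn2 _ _ (Fin.castSucc_lt_last j)) (ha j.castSucc).le
      linarith

theorem pf_VOL : T_GSU → T_VO2 → T_VOL := by
  intro hGSU hVO2 m hm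
  obtain ⟨C, hC, h⟩ := main_bd hVO2 m m le_rfl
  refine ⟨C, hC, fun f hf => ?_⟩
  have hS := hGSU.2.2 m
  have hsg : ∀ z ∈ {z : V m | ∃ n k : Mat m, Sgl (mt z) n (gs (mt z)) k},
      ln m z = gs (mt z) ∧ Gd m z := by
    rintro z ⟨n, k, hz⟩
    obtain ⟨-, h2, h3⟩ := sgl_kv m z (fun i t => k i t) (gs (mt z)) (fun i j => n i j)
      (fun j l => by
        have h4 := congrFun (congrFun hz.orth j) l
        rw [Matrix.mul_apply, Matrix.one_apply] at h4
        simpa only [Matrix.transpose_apply] using h4)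
      hz.pos hz.one hz.up hz.lo (fun i t => by
        have h4 := congrFun (congrFun hz.eq i) t
        rw [Matrix.mul_apply] at h4
        simp only [Matrix.mul_diagonal] at h4
        exact h4)
    exact ⟨h2, h3⟩
  calc ∫⁻ z in {z : V m | ∃ n k : Mat m, Sgl (mt z) n (gs (mt z)) k}, f (gs (mt z)) ≤
      ∫⁻ z in {z : V m | ∃ n k : Mat m, Sgl (mt z) n (gs (mt z)) k},
        {z : Fin m → Fin m → ℝ | Gd m z}.indicator (fun z => f (ln m z)) z := by
        refine setLIntegral_mono' hS fun z hz => ?_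
        obtain ⟨h1, h2⟩ := hsg z hz
        rw [Set.indicator_of_mem (s := {z : Fin m → Fin m → ℝ | Gd m z}) h2, h1]
    _ ≤ ∫⁻ z, {z : Fin m → Fin m → ℝ | Gd m z}.indicator (fun z => f (ln m z)) z :=
        setLIntegral_le_lintegral _ _
    _ ≤ ENNReal.ofReal C * ∫⁻ a, (pv m).indicator (fun a => f a * wgh m m a) a := h f hf
    _ = _ := by
        rw [lintegral_indicator (meas_pv m)]
        congr 1
        refine setLIntegral_congr_fun (meas_pv m) fun a _ => ?_
        unfold wgh
        simp only [two_mul]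

end Pool.Agent.H27.L1.H20.GZ
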